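import Pool.Agent.N483.KM.Stm

/-!
# Sections of maximal volume: the regression
-/

set_option autoImplicit false

namespace Pool.Agent.N227.KM

open MeasureTheory Set Filter Topology
open scoped ENNReal InnerProductSpace
open Pool.Agent.R754.KG (E un sl Rv un_prob un_lint un_int)
open Pool.Agent.R755.KF (CB)
open Pool.Agent.N483.KM (S_FDN S_RES S_REG)

namespace Reg

/-! ### projections -/

theorem proj_ex {Ω : Type} [MeasurableSpace Ω] (μ : Measure Ω) {V : Type} [AddCommGroup V]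
    [Module ℝ V] [FiniteDimensional ℝ V] (φ : V →ₗ[ℝ] (Ω → ℝ)) (hφ : ∀ v, MemLp (φ v) 2 μ)
    (f : Ω → ℝ) (hf : MemLp f 2 μ) : ∃ v, ∀ v', ∫ x, (f x - φ v x) * φ v' x ∂μ = 0 := by
  classical
  let J : V →ₗ[ℝ] Lp ℝ 2 μ :=
    { toFun := fun v => (hφ v).toLp
      map_add' := fun v v' => by
        rw [← MemLp.toLp_add]
        congr 1
        exact map_add φ v v'
      map_smul' := fun c v => by
        simp only [RingHom.id_apply]
        rw [← MemLp.toLp_const_smul]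
        congr 1
        exact map_smul φ c v }
  have hfin : FiniteDimensional ℝ (LinearMap.range J) := inferInstance
  have hp : (LinearMap.range J).starProjection hf.toLp ∈ LinearMap.range J :=
    Submodule.starProjection_apply_mem _ _
  obtain ⟨v, hv⟩ := hp
  refine ⟨v, fun v' => ?_⟩
  have h1 : ⟪hf.toLp - (LinearMap.range J).starProjection hf.toLp, J v'⟫_ℝ = 0 :=
    Submodule.starProjection_inner_eq_zero _ _ ⟨v', rfl⟩
  rw [← hv, L2.inner_def] at h1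
  rw [← h1]
  refine integral_congr_ae ?_
  filter_upwards [Lp.coeFn_sub hf.toLp (J v), hf.coeFn_toLp, (hφ v).coeFn_toLp,
    (hφ v').coeFn_toLp] with x e1 e2 e3 e4
  have e5 : (J v' : Ω → ℝ) x = φ v' x := e4
  have e6 : (J v : Ω → ℝ) x = φ v x := e3
  rw [e1, e5]
  simp only [Pi.sub_apply, e2, e6, RCLike.inner_apply, conj_trivial]
  ring

/-! ### fibres -/

variable {N d k : ℕ} {K : Set (E N × E d)}

theorem meas (h : CB K) : MeasurableSet K := h.comp.measurableSet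
theorem bdd (h : CB K) : Bornology.IsBounded K := h.comp.isBounded
theorem kfin (h : CB K) : volume K ≠ ⊤ := h.comp.measure_lt_top.ne
theorem sl_meas (h : CB K) (t : E d) : MeasurableSet (sl K t) := measurable_prodMk_right (meas h)
theorem sl_bd (h : CB K) (t : E d) : Bornology.IsBounded (sl K t) :=
  (bdd h).image_fst.subset fun x hx => ⟨(x, t), hx, rfl⟩
theorem sl_fin (h : CB K) (t : E d) : volume (sl K t) ≠ ⊤ := (sl_bd h t).measure_lt_top.ne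

theorem R_vol (h : CB K) (t : E d) : volume (sl K t) = ENNReal.ofReal (Rv K t) := by
  unfold Rv
  rw [ENNReal.ofReal_toReal (sl_fin h t)]

theorem fub (h : CB K) (F : E N × E d → ℝ≥0∞) (hF : Measurable F) :
    ∫⁻ z in K, F z = ∫⁻ t, ∫⁻ x in sl K t, F (x, t) := by
  rw [← lintegral_indicator (meas h), Measure.volume_eq_prod,
    lintegral_prod_symm' _ (hF.indicator (meas h))]
  refine lintegral_congr fun t => ?_
  rw [← lintegral_indicator (sl_meas h t)]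
  rfl

theorem vol_fub (h : CB K) : volume K = ∫⁻ t, volume (sl K t) := by
  have := fub h (fun _ => 1) measurable_const
  simpa using this

theorem max_pos (h : CB K) (ts : E d) (hts : ∀ t, Rv K t ≤ Rv K ts) : volume (sl K ts) ≠ 0 := by
  intro h0
  have hR : Rv K ts ≤ 0 := by
    rw [R_vol h ts, ENNReal.ofReal_eq_zero] at h0
    exact h0
  have h1 := vol_fub h
  have h2 : ∀ t, volume (sl K t) = 0 := fun t => by
    rw [R_vol h t, ENNReal.ofReal_eq_zero]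
    exact (hts t).trans hR
  simp only [h2, lintegral_zero] at h1
  exact h.pos.ne' h1

/-- the scalar case, for unit vectors -/
theorem sc1 (h1 : S_FDN) {C : ℝ} (hC : 0 < C) (h2 : ∀ (g : E d → ℝ → ℝ≥0∞) (ts : E d),
    Measurable (fun z : E d × ℝ => g z.1 z.2) →
    (∀ t t' v v' s, 0 < s → s < 1 → g t v ^ (1 - s) * g t' v' ^ s ≤
      g ((1 - s) • t + s • t') ((1 - s) * v + s * v')) →
    (∃ B : ℝ, ∀ t v, B < ‖t‖ ∨ B < |v| → g t v = 0) →
    ∫⁻ t, ∫⁻ v, g t v ≠ 0 → ∫⁻ t, ∫⁻ v, g t v ≠ ⊤ → ∫⁻ v, g ts v ≠ ⊤ →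
    (∀ t, ∫⁻ v, g t v ≤ ∫⁻ v, g ts v) →
    ∀ a : ℝ, ∃ (b : E d) (c : ℝ),
    (∫⁻ t, ∫⁻ v, ENNReal.ofReal ((v - ⟪b, t⟫_ℝ - c) ^ 2) * g t v) * ∫⁻ v, g ts v ≤
      ENNReal.ofReal C * (∫⁻ v, ENNReal.ofReal ((v - a) ^ 2) * g ts v) * ∫⁻ t, ∫⁻ v, g t v)
    (h : CB K) (ts : E d) (hts : ∀ t, Rv K t ≤ Rv K ts) (θ : E N) (hθ : ‖θ‖ = 1) (a : ℝ) :
    ∃ (b : E d) (c : ℝ), ∫ z, (⟪θ, z.1⟫_ℝ - ⟪b, z.2⟫_ℝ - c) ^ 2 ∂(un K) ≤
      C * ∫ x, (⟪θ, x⟫_ℝ - a) ^ 2 ∂(un (sl K ts)) := by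
  obtain ⟨g, gm, glc, gb, gF⟩ := h1 N d K θ h hθ
  have hm : ∀ t, ∫⁻ v, g t v = volume (sl K t) := fun t => by
    have := gF t (fun _ => 1) measurable_const
    simp only [lintegral_const, Measure.restrict_apply_univ, one_mul] at this
    exact this.symm
  have hmm : ∫⁻ t, ∫⁻ v, g t v = volume K := by
    simp only [hm]
    exact (vol_fub h).symm
  have hp := max_pos h ts hts
  have hmx : ∀ t, ∫⁻ v, g t v ≤ ∫⁻ v, g ts v := fun t => by
    rw [hm t, hm ts, R_vol h t, R_vol h ts]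
    exact ENNReal.ofReal_le_ofReal (hts t)
  obtain ⟨b, c, hbc⟩ := h2 g ts gm glc gb (by rw [hmm]; exact h.pos.ne') (by rw [hmm]; exact kfin h)
    (by rw [hm]; exact sl_fin h ts) hmx a
  refine ⟨b, c, ?_⟩
  have e1 : ∫⁻ t, ∫⁻ v, ENNReal.ofReal ((v - ⟪b, t⟫_ℝ - c) ^ 2) * g t v =
      volume K * ∫⁻ z, ENNReal.ofReal ((⟪θ, z.1⟫_ℝ - ⟪b, z.2⟫_ℝ - c) ^ 2) ∂(un K) := by
    rw [← un_lint h.pos.ne' (kfin h), fub h _ (by fun_prop)]
    refine lintegral_congr fun t => ?_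
    exact (gF t (fun v => ENNReal.ofReal ((v - ⟪b, t⟫_ℝ - c) ^ 2)) (by fun_prop)).symm
  have e2 : ∫⁻ v, ENNReal.ofReal ((v - a) ^ 2) * g ts v =
      volume (sl K ts) * ∫⁻ x, ENNReal.ofReal ((⟪θ, x⟫_ℝ - a) ^ 2) ∂(un (sl K ts)) := by
    rw [← un_lint hp (sl_fin h ts)]
    exact (gF ts (fun v => ENNReal.ofReal ((v - a) ^ 2)) (by fun_prop)).symm
  rw [e1, e2, hm, hmm] at hbc
  have i1 : Integrable (fun z : E N × E d => (⟪θ, z.1⟫_ℝ - ⟪b, z.2⟫_ℝ - c) ^ 2) (un K) :=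
    un_int h.pos.ne' (bdd h) (by fun_prop)
  have i2 : Integrable (fun x : E N => (⟪θ, x⟫_ℝ - a) ^ 2) (un (sl K ts)) :=
    un_int hp (sl_bd h ts) (by fun_prop)
  rw [← ofReal_integral_eq_lintegral_ofReal i1 (Eventually.of_forall fun _ => sq_nonneg _),
    ← ofReal_integral_eq_lintegral_ofReal i2 (Eventually.of_forall fun _ => sq_nonneg _)] at hbc
  have n1 : 0 ≤ ∫ z, (⟪θ, z.1⟫_ℝ - ⟪b, z.2⟫_ℝ - c) ^ 2 ∂(un K) :=
    integral_nonneg fun _ => sq_nonneg _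
  have n2 : 0 ≤ ∫ x, (⟪θ, x⟫_ℝ - a) ^ 2 ∂(un (sl K ts)) :=
    integral_nonneg fun _ => sq_nonneg _
  have k1 : 0 < (volume K).toReal := ENNReal.toReal_pos h.pos.ne' (kfin h)
  have k2 : 0 < (volume (sl K ts)).toReal := ENNReal.toReal_pos hp (sl_fin h ts)
  rw [← ENNReal.ofReal_toReal (kfin h), ← ENNReal.ofReal_toReal (sl_fin h ts),
    ← ENNReal.ofReal_mul k1.le, ← ENNReal.ofReal_mul (by positivity),
    ← ENNReal.ofReal_mul (by positivity), ← ENNReal.ofReal_mul (by positivity),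
    ← ENNReal.ofReal_mul (by positivity), ENNReal.ofReal_le_ofReal_iff (by positivity)] at hbc
  have hk : 0 < (volume K).toReal * (volume (sl K ts)).toReal := by positivity
  refine le_of_mul_le_mul_left ?_ hk
  linarith

/-- the scalar case -/
theorem sc2 (h1 : S_FDN) {C : ℝ} (hC : 0 < C) (h2 : ∀ (g : E d → ℝ → ℝ≥0∞) (ts : E d),
    Measurable (fun z : E d × ℝ => g z.1 z.2) →
    (∀ t t' v v' s, 0 < s → s < 1 → g t v ^ (1 - s) * g t' v' ^ s ≤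
      g ((1 - s) • t + s • t') ((1 - s) * v + s * v')) →
    (∃ B : ℝ, ∀ t v, B < ‖t‖ ∨ B < |v| → g t v = 0) →
    ∫⁻ t, ∫⁻ v, g t v ≠ 0 → ∫⁻ t, ∫⁻ v, g t v ≠ ⊤ → ∫⁻ v, g ts v ≠ ⊤ →
    (∀ t, ∫⁻ v, g t v ≤ ∫⁻ v, g ts v) →
    ∀ a : ℝ, ∃ (b : E d) (c : ℝ),
    (∫⁻ t, ∫⁻ v, ENNReal.ofReal ((v - ⟪b, t⟫_ℝ - c) ^ 2) * g t v) * ∫⁻ v, g ts v ≤
      ENNReal.ofReal C * (∫⁻ v, ENNReal.ofReal ((v - a) ^ 2) * g ts v) * ∫⁻ t, ∫⁻ v, g t v)
    (h : CB K) (ts : E d) (hts : ∀ t, Rv K t ≤ Rv K ts) (w : E N) :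
    ∃ (b : E d) (c : ℝ), ∫ z, (⟪w, z.1⟫_ℝ - ⟪b, z.2⟫_ℝ - c) ^ 2 ∂(un K) ≤
      C * ((∫ x, ⟪w, x⟫_ℝ ^ 2 ∂(un (sl K ts))) - (∫ x, ⟪w, x⟫_ℝ ∂(un (sl K ts))) ^ 2) := by
  have hp := max_pos h ts hts
  have := un_prob hp (sl_fin h ts)
  by_cases hw : w = 0
  · refine ⟨0, 0, ?_⟩
    subst hw
    simp
  have hw0 : 0 < ‖w‖ := norm_pos_iff.2 hw
  have hθ : ‖(‖w‖⁻¹ : ℝ) • w‖ = 1 := by
    rw [norm_smul, norm_inv, norm_norm, inv_mul_cancel₀ hw0.ne']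
  obtain ⟨b, c, hbc⟩ := sc1 h1 hC h2 h ts hts _ hθ (∫ x, ⟪(‖w‖⁻¹ : ℝ) • w, x⟫_ℝ ∂(un (sl K ts)))
  refine ⟨‖w‖ • b, ‖w‖ * c, ?_⟩
  have e1 : ∫ z, (⟪w, z.1⟫_ℝ - ⟪‖w‖ • b, z.2⟫_ℝ - ‖w‖ * c) ^ 2 ∂(un K) =
      ‖w‖ ^ 2 * ∫ z, (⟪(‖w‖⁻¹ : ℝ) • w, z.1⟫_ℝ - ⟪b, z.2⟫_ℝ - c) ^ 2 ∂(un K) := by
    rw [← integral_const_mul]
    refine integral_congr_ae (Eventually.of_forall fun z => ?_)
    simp only [inner_smul_left, conj_trivial]
    field_simp
  rw [e1]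
  have i1 : Integrable (fun x : E N => ⟪w, x⟫_ℝ ^ 2) (un (sl K ts)) :=
    un_int hp (sl_bd h ts) (by fun_prop)
  have i2 : Integrable (fun x : E N => ⟪w, x⟫_ℝ) (un (sl K ts)) :=
    un_int hp (sl_bd h ts) (by fun_prop)
  have e2 : ∫ x, (⟪(‖w‖⁻¹ : ℝ) • w, x⟫_ℝ - ∫ x, ⟪(‖w‖⁻¹ : ℝ) • w, x⟫_ℝ ∂(un (sl K ts))) ^ 2
      ∂(un (sl K ts)) = ‖w‖⁻¹ ^ 2 * ((∫ x, ⟪w, x⟫_ℝ ^ 2 ∂(un (sl K ts))) -
        (∫ x, ⟪w, x⟫_ℝ ∂(un (sl K ts))) ^ 2) := by
    simp only [inner_smul_left, conj_trivial]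
    rw [integral_const_mul]
    set m := ∫ x, ⟪w, x⟫_ℝ ∂(un (sl K ts)) with hm
    have e3 : (fun x : E N => (‖w‖⁻¹ * ⟪w, x⟫_ℝ - ‖w‖⁻¹ * m) ^ 2) = fun x =>
        ‖w‖⁻¹ ^ 2 * (⟪w, x⟫_ℝ ^ 2 - (2 * m) * ⟪w, x⟫_ℝ + m ^ 2) := by
      funext x
      ring
    have i3 : Integrable (fun x : E N => ⟪w, x⟫_ℝ ^ 2 - (2 * m) * ⟪w, x⟫_ℝ) (un (sl K ts)) :=
      i1.sub (i2.const_mul _)
    rw [e3, integral_const_mul, integral_add i3 (integrable_const _),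
      integral_sub i1 (i2.const_mul _), integral_const_mul, ← hm]
    simp only [integral_const, probReal_univ, smul_eq_mul, one_mul]
    ring
  rw [e2] at hbc
  have := mul_le_mul_of_nonneg_left hbc (sq_nonneg ‖w‖)
  refine this.trans (le_of_eq ?_)
  field_simp

/-- the affine functions on the base -/
noncomputable def af (N d : ℕ) : (E d × ℝ) →ₗ[ℝ] (E N × E d → ℝ) where
  toFun v := fun z => ⟪v.1, z.2⟫_ℝ + v.2
  map_add' v w := by
    funext z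
    simp only [Prod.fst_add, Prod.snd_add, inner_add_left, Pi.add_apply]
    ring
  map_smul' c v := by
    funext z
    simp only [Prod.smul_fst, Prod.smul_snd, inner_smul_left, conj_trivial, Pi.smul_apply,
      RingHom.id_apply, smul_eq_mul]
    ring

theorem memLp_c (h : CB K) {f : E N × E d → ℝ} (hf : Continuous f) : MemLp f 2 (un K) := by
  rw [memLp_two_iff_integrable_sq hf.aestronglyMeasurable]
  exact un_int h.pos.ne' (bdd h) (by fun_prop)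

end Reg

open Reg

/-- KM20 -/
theorem t_REG (h1 : S_FDN) (h2 : S_RES) : S_REG := by
  intro d
  obtain ⟨C, hC, h2'⟩ := h2 d
  refine ⟨C, hC, ?_⟩
  intro N k K ts h hts P s hs hv
  have hp := max_pos h ts hts
  have := un_prob hp (sl_fin h ts)
  have := un_prob h.pos.ne' (kfin h)
  have hP : Continuous P := LinearMap.continuous_of_finiteDimensional P
  have hi : ∀ f : E N × E d → ℝ, Continuous f → Integrable f (un K) := fun f hf =>
    un_int h.pos.ne' (bdd h) hf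
  have haf : ∀ v : E d × ℝ, Continuous (af N d v) := fun v => by
    change Continuous fun z : E N × E d => ⟪v.1, z.2⟫_ℝ + v.2
    fun_prop
  have hpi : ∀ i : Fin k, Continuous fun z : E N × E d => P z.1 i := fun i => by fun_prop
  have hex : ∀ i : Fin k, ∃ v : E d × ℝ, ∀ v', ∫ z, (P z.1 i - af N d v z) * af N d v' z ∂(un K)
      = 0 := fun i => proj_ex (un K) (af N d) (fun v => memLp_c h (haf v)) (fun z => P z.1 i)
        (memLp_c h (hpi i))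
  choose v hvv using hex
  let B0 : E d →ₗ[ℝ] (Fin k → ℝ) := LinearMap.pi fun i => (innerₛₗ ℝ (v i).1)
  let B : E d →ₗ[ℝ] E k := (WithLp.linearEquiv 2 ℝ (Fin k → ℝ)).symm.toLinearMap ∘ₗ B0
  have hB : ∀ t i, B t i = ⟪(v i).1, t⟫_ℝ := fun t i => rfl
  have hBc : Continuous B := LinearMap.continuous_of_finiteDimensional B
  refine ⟨B, fun θ hθ => ?_⟩
  obtain ⟨b, c, hbc⟩ := sc2 h1 hC h2' h ts hts (LinearMap.adjoint P θ)
  have eP : ∀ x, ⟪LinearMap.adjoint P θ, x⟫_ℝ = ⟪P x, θ⟫_ℝ := fun x => by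
    rw [LinearMap.adjoint_inner_left, real_inner_comm]
  simp only [eP] at hbc
  have hbs := hbc.trans (mul_le_mul_of_nonneg_left (hv θ hθ) hC.le)
  refine le_trans ?_ hbs
  set c1 : ℝ := ∑ i, θ i * (v i).2 with hc1
  set b1 : E d := ∑ i, θ i • (v i).1 with hb1
  set R : E N × E d → ℝ := fun z => ⟪P z.1 - B z.2, θ⟫_ℝ - c1 with hR
  have hRc : Continuous R := by
    rw [hR]
    fun_prop
  have hRs : ∀ z, R z = ∑ i, θ i * (P z.1 i - af N d (v i) z) := fun z => by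
    have e1 : ⟪P z.1 - B z.2, θ⟫_ℝ = ∑ i, θ i * (P z.1 i - ⟪(v i).1, z.2⟫_ℝ) := by
      rw [PiLp.inner_apply]
      refine Finset.sum_congr rfl fun i _ => ?_
      simp only [PiLp.sub_apply, RCLike.inner_apply, conj_trivial, hB]
    simp only [hR, e1, hc1, ← Finset.sum_sub_distrib]
    refine Finset.sum_congr rfl fun i _ => ?_
    change _ = θ i * (P z.1 i - (⟪(v i).1, z.2⟫_ℝ + (v i).2))
    ring
  have hort : ∀ v' : E d × ℝ, ∫ z, R z * af N d v' z ∂(un K) = 0 := fun v' => by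
    have hv'c := haf v'
    have e1 : ∀ z, R z * af N d v' z = ∑ i, θ i * ((P z.1 i - af N d (v i) z) * af N d v' z) :=
      fun z => by
        rw [hRs z, Finset.sum_mul]
        refine Finset.sum_congr rfl fun i _ => ?_
        ring
    simp only [e1]
    rw [integral_finsetSum]
    · refine Finset.sum_eq_zero fun i _ => ?_
      rw [integral_const_mul, hvv i v', mul_zero]
    · intro i _
      have h3 := haf (v i)
      have h4 := hpi i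
      exact hi _ (by fun_prop)
  have hvar : (∫ z, ⟪P z.1 - B z.2, θ⟫_ℝ ^ 2 ∂(un K)) - (∫ z, ⟪P z.1 - B z.2, θ⟫_ℝ ∂(un K)) ^ 2 ≤
      ∫ z, R z ^ 2 ∂(un K) := by
    have i1 : Integrable (fun z : E N × E d => ⟪P z.1 - B z.2, θ⟫_ℝ ^ 2) (un K) :=
      hi _ (by fun_prop)
    have i2 : Integrable (fun z : E N × E d => ⟪P z.1 - B z.2, θ⟫_ℝ) (un K) :=
      hi _ (by fun_prop)
    have e1 : ∫ z, R z ^ 2 ∂(un K) = (∫ z, ⟪P z.1 - B z.2, θ⟫_ℝ ^ 2 ∂(un K)) -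
        2 * c1 * (∫ z, ⟪P z.1 - B z.2, θ⟫_ℝ ∂(un K)) + c1 ^ 2 := by
      have e2 : (fun z => R z ^ 2) = fun z => ⟪P z.1 - B z.2, θ⟫_ℝ ^ 2 -
          (2 * c1) * ⟪P z.1 - B z.2, θ⟫_ℝ + c1 ^ 2 := by
        funext z
        simp only [hR]
        ring
      have i3 : Integrable (fun z : E N × E d => ⟪P z.1 - B z.2, θ⟫_ℝ ^ 2 -
          (2 * c1) * ⟪P z.1 - B z.2, θ⟫_ℝ) (un K) := i1.sub (i2.const_mul _)
      rw [e2, integral_add i3 (integrable_const _),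
        integral_sub i1 (i2.const_mul _), integral_const_mul]
      simp only [integral_const, probReal_univ, smul_eq_mul, one_mul]
    rw [e1]
    nlinarith [sq_nonneg ((∫ z, ⟪P z.1 - B z.2, θ⟫_ℝ ∂(un K)) - c1)]
  refine hvar.trans ?_
  set v1 : E d × ℝ := (b1 - b, c1 - c) with hv1
  have hv1c := haf v1
  have e3 : ∀ z : E N × E d, ⟪P z.1, θ⟫_ℝ - ⟪b, z.2⟫_ℝ - c = R z + af N d v1 z := fun z => by
    change _ = (⟪P z.1 - B z.2, θ⟫_ℝ - c1) + (⟪b1 - b, z.2⟫_ℝ + (c1 - c))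
    have e4 : ⟪B z.2, θ⟫_ℝ = ⟪b1, z.2⟫_ℝ := by
      rw [PiLp.inner_apply, hb1, sum_inner]
      refine Finset.sum_congr rfl fun i _ => ?_
      simp only [RCLike.inner_apply, conj_trivial, hB, inner_smul_left]
    rw [inner_sub_left, inner_sub_left, e4]
    ring
  simp only [e3]
  have e5 : (fun z => (R z + af N d v1 z) ^ 2) = fun z => R z ^ 2 + (2 * (R z * af N d v1 z) +
      af N d v1 z ^ 2) := by
    funext z
    ring
  rw [e5, integral_add (hi _ (by fun_prop)) (hi _ (by fun_prop)),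
    integral_add (hi _ (by fun_prop)) (hi _ (by fun_prop)), integral_const_mul, hort v1]
  have : 0 ≤ ∫ z, af N d v1 z ^ 2 ∂(un K) := integral_nonneg fun _ => sq_nonneg _
  linarith

end Pool.Agent.N227.KM
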